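import Pool.Agent.H19.BFL.Stmts
import Pool.Agent.H32.Dense.Split

/-!
# A bound for all events of positive probability passes to laws of bounded density

The entropies of `X` given `Y` are at most `U` on all events of `p` of probability at least `c0`,
and at most `V` for every law.  If `q` has density at most `M` with respect to `p`, then the
entropy of `X` given `Y` for `q` is at most `(1 + eta) U`, up to an error which is small if `c0`
is small and `L` is large.
-/

set_option autoImplicit false

namespace Pool.NFD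

open Finset Real
open Pool.Agent.H49.Ent Pool.Agent.H32.Dense Pool.STK
open Pool.BFL (Pb)

section

variable {Ω : Type} [Fintype Ω] {S T : Type*}

/-- A law whose density is at most `K`: cross entropy with the kernel of the other law. -/
theorem CH_le_mul {p q : Ω → ℝ} (hp : ∀ w, 0 ≤ p w) (hq : IsLaw q) {K : ℝ}
    (hd : ∀ w, q w ≤ K * p w) (hpos : ∀ w, 0 < q w → 0 < p w) (X : Ω → S) (Y : Ω → T) :
    CH q X Y ≤ K * CH p X Y := by
  classical
  have h1 := CH_le_cross hq.nonneg hq.sum_one X Y
    (fun y x => law p (fun w => (X w, Y w)) (x, y) / law p Y y)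
    (fun w hw => div_pos (law_pos hp (fun w => (X w, Y w)) (hpos w hw))
      (law_pos hp Y (hpos w hw)))
    (fun y x => div_nonneg (law_nonneg hp _ _) (law_nonneg hp _ _))
    (by
      intro w hw F
      have c0 : 0 < law p Y (Y w) := law_pos hp Y (hpos w hw)
      rw [← Finset.sum_div, div_le_one c0]
      unfold law
      rw [Finset.sum_comm]
      refine Finset.sum_le_sum fun v _ => ?_
      by_cases hv : Y v = Y w
      · rw [if_pos hv]
        refine le_trans (le_of_eq (Finset.sum_congr rfl
          (g := fun x => if x = X v then p v else 0) fun x _ => ?_)) ?_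
        · by_cases hx : x = X v
          · rw [if_pos hx, if_pos (show (X v, Y v) = (x, Y w) by rw [hx, hv])]
          · rw [if_neg hx, if_neg fun e => hx (Prod.ext_iff.mp e).1.symm]
        rw [Finset.sum_ite_eq']
        split_ifs
        · exact le_rfl
        · exact hp v
      · rw [if_neg hv]
        refine (Finset.sum_eq_zero fun x _ => ?_).le
        rw [if_neg fun e => hv (Prod.ext_iff.mp e).2])
  refine h1.trans ?_
  rw [CH_eq_neg_sum hp]
  unfold Ex
  rw [Finset.mul_sum]
  refine Finset.sum_le_sum fun w _ => ?_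
  have c1 : law p (fun w => (X w, Y w)) (X w, Y w) ≤ law p Y (Y w) := by
    unfold law
    refine Finset.sum_le_sum fun v _ => ?_
    by_cases hv : Y v = Y w
    · rw [if_pos hv]
      split_ifs
      · exact le_rfl
      · exact hp v
    · rw [if_neg hv, if_neg fun e => hv (Prod.ext_iff.mp e).2]
  have c2 : 0 ≤ -Real.log (law p (fun w => (X w, Y w)) (X w, Y w) / law p Y (Y w)) := by
    rw [neg_nonneg]
    refine Real.log_nonpos (div_nonneg (law_nonneg hp _ _) (law_nonneg hp _ _)) ?_
    exact div_le_one_of_le₀ c1 (law_nonneg hp _ _)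
  rw [← mul_assoc]
  exact mul_le_mul_of_nonneg_right (hd w) c2

theorem Pb_nn {p : Ω → ℝ} (hp : ∀ w, 0 ≤ p w) (A : Ω → Prop) : 0 ≤ Pb p A := by
  classical
  unfold Pb
  exact Finset.sum_nonneg fun w _ => by split_ifs; exacts [hp w, le_rfl]

theorem Pb_law {p : Ω → ℝ} (A : Ω → Prop) : law p A True = Pb p A := by
  classical
  unfold law Pb
  refine Finset.sum_congr rfl fun w _ => ?_
  by_cases h : A w
  · simp [h]
  · simp [h]

theorem cond_law {p : Ω → ℝ} (hp : ∀ w, 0 ≤ p w) {U : Type*} (Z : Ω → U) {z : U}
    (hz : 0 < law p Z z) : IsLaw (cond p Z z) where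
  nonneg := cond_nonneg hp Z z
  sum_one := by
    have := sum_cond p Z hz.ne'
    exact this

/-- The level of the density. -/
theorem exists_level {x y : ℝ} (hx : 1 ≤ x) (hy : 1 < y) (L : ℕ) :
    ∃ i ≤ L, y ^ i ≤ x ∧ (i < L → x < y ^ (i + 1)) := by
  obtain ⟨n, h1, h2⟩ := exists_nat_pow_near hx hy
  rcases lt_or_ge n L with h | h
  · exact ⟨n, h.le, h1, fun _ => h2⟩
  · refine ⟨L, le_rfl, (pow_le_pow_right₀ hy.le h).trans h1, fun h3 => absurd h3 (lt_irrefl _)⟩

/-- **Events of positive probability and laws of bounded density.** -/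
theorem nf_dens {p q : Ω → ℝ} (hp : IsLaw p) (hq : IsLaw q) {M c0 eta U V : ℝ}
    {L : ℕ} (hM : 1 ≤ M) (hd : ∀ w, q w ≤ M * p w) (hc : 0 < c0) (heta : 0 < eta) (X : Ω → S)
    (Y : Ω → T) (hU : 0 ≤ U) (hV0 : 0 ≤ V)
    (hN : ∀ A : Ω → Prop, c0 ≤ Pb p A → CH (cond p A True) X Y ≤ U)
    (hV : ∀ r : Ω → ℝ, IsLaw r → (∀ w, 0 < r w → 0 < p w) → CH r X Y ≤ V) :
    CH q X Y ≤ (1 + eta) * U + (M * c0 * (1 + eta) / eta + M / (1 + eta) ^ L) * V +
      Real.log (L + 1) := by
  classical
  have hp0 := hp.nonneg
  have hq0 := hq.nonneg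
  have hM0 : 0 < M := by linarith
  have he1 : 1 < 1 + eta := by linarith
  have hpos : ∀ w, 0 < q w → 0 < p w := by
    intro w hw
    have h1 := hd w
    by_contra hcon
    have h2 : p w ≤ 0 := not_lt.mp hcon
    nlinarith
  have hx : ∀ w, 0 < q w → 1 ≤ M * p w / q w := by
    intro w hw
    rw [le_div_iff₀ hw, one_mul]
    exact hd w
  -- the levels
  set lv : Ω → ℕ := fun w => if h : 0 < q w then
    (exists_level (hx w h) he1 L).choose else L with hlv
  have lv1 : ∀ w, lv w ≤ L := by
    intro w
    simp only [hlv]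
    split_ifs with h
    · exact (exists_level (hx w h) he1 L).choose_spec.1
    · exact le_rfl
  have lv2 : ∀ w, 0 < q w → q w * (1 + eta) ^ lv w ≤ M * p w := by
    intro w h
    have h1 := (exists_level (hx w h) he1 L).choose_spec.2.1
    have h2 : lv w = (exists_level (hx w h) he1 L).choose := by
      simp only [hlv]
      rw [dif_pos h]
    rw [h2]
    rw [le_div_iff₀ h] at h1
    linarith
  have lv3 : ∀ w, 0 < q w → lv w < L → M * p w ≤ q w * (1 + eta) ^ (lv w + 1) := by
    intro w h hL
    have h2 : lv w = (exists_level (hx w h) he1 L).choose := by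
      simp only [hlv]
      rw [dif_pos h]
    rw [h2] at hL ⊢
    have h1 := (exists_level (hx w h) he1 L).choose_spec.2.2 hL
    rw [div_lt_iff₀ h] at h1
    linarith
  -- the index
  have s1 := CH_le_add hq0 X lv Y
  have s2 : CH q lv Y ≤ Real.log (L + 1) := by
    have h1 := CH_le_card hq0 hq.sum_one lv Y (fun _ => Finset.range (L + 1))
      (fun w _ => Finset.mem_range.mpr (Nat.lt_succ_of_le (lv1 w)))
    rw [Finset.card_range, Ex_const hq.sum_one] at h1
    push_cast at h1
    exact h1
  have s3 : CH q X (fun w => (lv w, Y w)) = CH q X (fun w => (Y w, lv w)) :=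
    CH_congr hq0 (fun w w' _ _ h => (Prod.ext_iff.mp h).1)
      (fun w w' _ _ h => (Prod.ext_iff.mp h).1)
      (fun w w' _ _ h => Prod.ext (Prod.ext_iff.mp h).2 (Prod.ext_iff.mp h).1)
      (fun w w' _ _ h => Prod.ext (Prod.ext_iff.mp h).2 (Prod.ext_iff.mp h).1)
  have s4 := CH_split hq0 X Y lv
  have s5 : ∑ j ∈ univ.image lv, law q lv j * CH (cond q lv j) X Y ≤
      ∑ j ∈ Finset.range (L + 1), law q lv j * CH (cond q lv j) X Y := by
    refine Finset.sum_le_sum_of_subset_of_nonneg ?_ ?_
    · intro j hj
      obtain ⟨w, _, rfl⟩ := Finset.mem_image.mp hj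
      exact Finset.mem_range.mpr (Nat.lt_succ_of_le (lv1 w))
    · intro j _ _
      exact mul_nonneg (law_nonneg hq0 _ _) (CH_nonneg (cond_nonneg hq0 _ _) _ _)
  -- mass of the levels
  have m1 : ∀ j, law q lv j * (1 + eta) ^ j ≤ M * Pb p (fun w => 0 < q w ∧ lv w = j) := by
    intro j
    unfold law Pb
    rw [Finset.sum_mul, Finset.mul_sum]
    refine Finset.sum_le_sum fun w _ => ?_
    by_cases h1 : lv w = j
    · rcases (hq0 w).eq_or_lt with h2 | h2
      · rw [if_pos h1, ← h2, zero_mul]
        split_ifs
        · exact mul_nonneg hM0.le (hp0 w)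
        · rw [mul_zero]
      · rw [if_pos h1, if_pos ⟨h2, h1⟩, ← h1]
        exact lv2 w h2
    · rw [if_neg h1, zero_mul, if_neg fun h => h1 h.2, mul_zero]
  -- one level
  have b1 : ∀ j, j < L → law q lv j * CH (cond q lv j) X Y ≤
      law q lv j * ((1 + eta) * U) + M * c0 * (1 / (1 + eta)) ^ j * V := by
    intro j hj
    have e0 : 0 ≤ M * c0 * (1 / (1 + eta)) ^ j * V := by positivity
    have e00 : 0 ≤ law q lv j * ((1 + eta) * U) :=
      mul_nonneg (law_nonneg hq0 _ _) (mul_nonneg (by linarith) hU)
    rcases (law_nonneg hq0 lv j).eq_or_lt with h0 | h0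
    · rw [← h0, zero_mul, zero_mul, zero_add]
      exact e0
    set A : Ω → Prop := fun w => 0 < q w ∧ lv w = j with hA
    have hl := cond_law hq0 lv h0
    rcases le_or_gt c0 (Pb p A) with h1 | h1
    · -- large probability
      have a1 : 0 < Pb p A := lt_of_lt_of_le hc h1
      have a2 : ∀ w, cond q lv j w ≤ (1 + eta) * cond p A True w := by
        intro w
        unfold Pool.Agent.H49.Ent.cond
        by_cases g1 : lv w = j
        · rcases (hq0 w).eq_or_lt with g2 | g2
          · rw [if_pos g1, ← g2, zero_div]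
            split_ifs
            · exact mul_nonneg (by linarith) (div_nonneg (hp0 w) (law_nonneg hp0 _ _))
            · rw [mul_zero]
          · have g3 : A w = True := eq_true ⟨g2, g1⟩
            rw [if_pos g1, if_pos g3, Pb_law]
            have g4 := m1 j
            have g5 : M * Pb p A ≤ law q lv j * (1 + eta) ^ (j + 1) := by
              unfold law Pb
              rw [Finset.sum_mul, Finset.mul_sum]
              refine Finset.sum_le_sum fun v _ => ?_
              by_cases k1 : A v
              · rw [if_pos k1, if_pos k1.2]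
                have := lv3 v k1.1 (by rw [k1.2]; exact hj)
                rw [k1.2] at this
                exact this
              · rw [if_neg k1, mul_zero]
                split_ifs
                · exact mul_nonneg (hq0 v) (by positivity)
                · rw [zero_mul]
            have g6 := lv2 w g2
            rw [g1] at g6
            rw [← mul_div_assoc, div_le_div_iff₀ h0 a1]
            have g7 : (0 : ℝ) < (1 + eta) ^ j := by positivity
            have g8 : q w * (1 + eta) ^ j * (M * Pb p A) ≤
                M * p w * (law q lv j * (1 + eta) ^ (j + 1)) :=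
              mul_le_mul g6 g5 (by positivity) (mul_nonneg hM0.le (hp0 w))
            have g9 : (M * (1 + eta) ^ j) * (q w * Pb p A) ≤
                (M * (1 + eta) ^ j) * ((1 + eta) * p w * law q lv j) := by
              have r1 : (M * (1 + eta) ^ j) * (q w * Pb p A) =
                q w * (1 + eta) ^ j * (M * Pb p A) := by ring
              have r2 : (M * (1 + eta) ^ j) * ((1 + eta) * p w * law q lv j) =
                M * p w * (law q lv j * (1 + eta) ^ (j + 1)) := by
                rw [pow_succ]
                ring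
              rw [r1, r2]
              exact g8
            exact le_of_mul_le_mul_left g9 (by positivity)
        · rw [if_neg g1]
          split_ifs
          · exact mul_nonneg (by linarith) (div_nonneg (hp0 w) (law_nonneg hp0 _ _))
          · rw [mul_zero]
      have a3 := CH_le_mul (cond_nonneg hp0 A True) hl a2 (by
        intro w hw
        have g1 : 0 ≤ cond p A True w := cond_nonneg hp0 A True w
        have g2 := a2 w
        by_contra hcon
        have g3 : cond p A True w = 0 := le_antisymm (not_lt.mp hcon) g1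
        rw [g3, mul_zero] at g2
        linarith) X Y
      have a4 := hN A h1
      have a5 : CH (cond q lv j) X Y ≤ (1 + eta) * U :=
        a3.trans (mul_le_mul_of_nonneg_left a4 (by linarith))
      have a6 := mul_le_mul_of_nonneg_left a5 h0.le
      linarith
    · -- small probability
      have a1 : CH (cond q lv j) X Y ≤ V := by
        refine hV _ hl fun w hw => ?_
        rw [cond_pos_iff hq0] at hw
        exact hpos w hw.1
      have a2 := m1 j
      have a3 : law q lv j ≤ M * c0 * (1 / (1 + eta)) ^ j := by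
        rw [one_div, inv_pow, ← div_eq_mul_inv, le_div_iff₀ (by positivity)]
        refine a2.trans ?_
        exact mul_le_mul_of_nonneg_left h1.le hM0.le
      have a4 : law q lv j * CH (cond q lv j) X Y ≤ law q lv j * V :=
        mul_le_mul_of_nonneg_left a1 h0.le
      have a5 : law q lv j * V ≤ M * c0 * (1 / (1 + eta)) ^ j * V :=
        mul_le_mul_of_nonneg_right a3 hV0
      linarith
  -- the last level
  have b2 : law q lv L * CH (cond q lv L) X Y ≤ M / (1 + eta) ^ L * V := by
    rcases (law_nonneg hq0 lv L).eq_or_lt with h0 | h0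
    · rw [← h0, zero_mul]
      positivity
    have hl := cond_law hq0 lv h0
    have a1 : CH (cond q lv L) X Y ≤ V := by
      refine hV _ hl fun w hw => ?_
      rw [cond_pos_iff hq0] at hw
      exact hpos w hw.1
    have a2 := m1 L
    have a3 : Pb p (fun w => 0 < q w ∧ lv w = L) ≤ 1 := by
      unfold Pb
      rw [← hp.sum_one]
      refine Finset.sum_le_sum fun w _ => ?_
      split_ifs
      · exact le_rfl
      · exact hp0 w
    have a4 : law q lv L ≤ M / (1 + eta) ^ L := by
      rw [le_div_iff₀ (by positivity)]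
      refine a2.trans ?_
      calc M * Pb p (fun w => 0 < q w ∧ lv w = L) ≤ M * 1 :=
            mul_le_mul_of_nonneg_left a3 hM0.le
        _ = M := mul_one M
    have a5 : law q lv L * CH (cond q lv L) X Y ≤ law q lv L * V :=
      mul_le_mul_of_nonneg_left a1 h0.le
    exact a5.trans (mul_le_mul_of_nonneg_right a4 hV0)
  -- the sum
  have c1 : ∑ j ∈ Finset.range L, law q lv j * CH (cond q lv j) X Y ≤
      ∑ j ∈ Finset.range L, (law q lv j * ((1 + eta) * U) +
        M * c0 * (1 / (1 + eta)) ^ j * V) :=
    Finset.sum_le_sum fun j hj => b1 j (Finset.mem_range.mp hj)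
  have c2 : ∑ j ∈ Finset.range L, law q lv j ≤ 1 := by
    have h1 : ∑ j ∈ univ.image lv, law q lv j = 1 := sum_law_one hq.sum_one lv
    have h2 : ∑ j ∈ Finset.range L, law q lv j =
        ∑ j ∈ (Finset.range L).filter (fun j => j ∈ univ.image lv), law q lv j := by
      rw [Finset.sum_filter]
      refine Finset.sum_congr rfl fun j _ => ?_
      split_ifs with h
      · rfl
      · exact law_eq_zero_of_notMem q lv h
    rw [h2, ← h1]
    refine Finset.sum_le_sum_of_subset_of_nonneg ?_ fun j _ _ => law_nonneg hq0 _ _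
    intro j hj
    exact (Finset.mem_filter.mp hj).2
  have c3 : ∑ j ∈ Finset.range L, (1 / (1 + eta)) ^ j ≤ (1 + eta) / eta := by
    have hr0 : (0 : ℝ) ≤ 1 / (1 + eta) := by positivity
    have hr1 : 1 / (1 + eta) < 1 := by
      rw [div_lt_one (by linarith)]
      exact he1
    have h1 := mul_neg_geom_sum (1 / (1 + eta)) L
    have h2 : (1 - 1 / (1 + eta)) = eta / (1 + eta) := by
      field_simp
      ring
    have h3 : 0 ≤ (1 / (1 + eta)) ^ L := pow_nonneg hr0 L
    rw [h2] at h1
    rw [le_div_iff₀ heta]
    have h4 : eta / (1 + eta) * (∑ j ∈ Finset.range L, (1 / (1 + eta)) ^ j) ≤ 1 := by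
      rw [h1]
      linarith
    rw [div_mul_eq_mul_div, div_le_one (by linarith)] at h4
    linarith
  rw [Finset.sum_range_succ] at s5
  rw [Finset.sum_add_distrib, ← Finset.sum_mul, ← Finset.sum_mul, ← Finset.mul_sum] at c1
  have c4 : (∑ j ∈ Finset.range L, law q lv j) * ((1 + eta) * U) ≤ (1 + eta) * U := by
    have := mul_le_mul_of_nonneg_right c2 (show 0 ≤ (1 + eta) * U from
      mul_nonneg (by linarith) hU)
    rwa [one_mul] at this
  have c5 : M * c0 * (∑ j ∈ Finset.range L, (1 / (1 + eta)) ^ j) * V ≤
      M * c0 * (1 + eta) / eta * V := by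
    refine mul_le_mul_of_nonneg_right ?_ hV0
    rw [mul_div_assoc]
    exact mul_le_mul_of_nonneg_left c3 (by positivity)
  have c6 : (M * c0 * (1 + eta) / eta + M / (1 + eta) ^ L) * V =
      M * c0 * (1 + eta) / eta * V + M / (1 + eta) ^ L * V := by ring
  rw [c6]
  rw [s3, s4] at s1
  linarith

/-- The same, pulled back along a map. -/
theorem nf_dens_pull {Ω' : Type} [Fintype Ω'] {p : Ω → ℝ} {q : Ω' → ℝ} (hp : IsLaw p)
    (hq : IsLaw q) (f : Ω' → Ω) {M c0 eta U V : ℝ} {L : ℕ} (hM : 1 ≤ M)
    (hd : ∀ w, law q f w ≤ M * p w) (hc : 0 < c0) (heta : 0 < eta) (X : Ω → S)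
    (Y : Ω → T) (hU : 0 ≤ U) (hV0 : 0 ≤ V)
    (hN : ∀ A : Ω → Prop, c0 ≤ Pb p A → CH (cond p A True) X Y ≤ U)
    (hV : ∀ r : Ω → ℝ, IsLaw r → (∀ w, 0 < r w → 0 < p w) → CH r X Y ≤ V) :
    CH q (fun w => X (f w)) (fun w => Y (f w)) ≤
      (1 + eta) * U + (M * c0 * (1 + eta) / eta + M / (1 + eta) ^ L) * V +
      Real.log (L + 1) := by
  classical
  have hm : Marg q (law q f) f := by
    intro w
    unfold law
    refine Finset.sum_congr rfl fun v _ => ?_
    by_cases h : f v = w
    · simp [h]
    · simp [h]
  have hl : IsLaw (law q f) := ⟨law_nonneg hq.nonneg f, by rw [← hm.sum, hq.sum_one]⟩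
  rw [hm.CH X Y]
  exact nf_dens hp hl hM hd hc heta X Y hU hV0 hN hV

end

end Pool.NFD
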